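import Pool.Agent.U152.PE.Thy

/-!
# Semisimplicity of polarized endomorphisms: divisibility of the numbers of Jordan blocks suffices

Let `K` be an algebraically closed field of characteristic `p`, `q ≥ 2` an integer and `r` a prime
number not dividing `2 p q`.  `PolData r` describes the pairs `A = (X, f)` of a smooth projective
variety over `K` and a polarized endomorphism `f` whose multiplier is a power of `q`, the sizes of
the Jordan blocks of `f^*` on the sum of all `H^i (X)`, and the construction
`cyc (X, f) = ((X^r × E) / (ℤ/r), (f^k, ..., f^k, [s]))`, where `E` is an elliptic curve, `ℤ/r` acts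
by cyclic permutations of the factors `X` and by the translation by a point of order `r` of `E`,
and `s ^ 2` is the multiplier of `f^k`, `s` congruent to `1` modulo `r`.

Theorem.  All these `f^*` are diagonalizable if and only if for all these pairs `(X, f)` and all
`n ≥ 2` the NUMBER of the Jordan blocks of size `n` of `f^*` on the sum of all `H^i (X)` is divisible
by `r`.
-/

namespace Pool.Agent.Results.MP_e95b71_ag.JordanBlockCongruences

open Pool.Agent.U152.PE

universe u

/-- **Theorem.** -/
theorem result (r : ℕ) (hr : r.Prime) (hodd : r ≠ 2) (T : PolData.{u} r) :
    T.Semisimple ↔ T.Congruences :=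
  PolData.main hr hodd

end Pool.Agent.Results.MP_e95b71_ag.JordanBlockCongruences
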